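import Pool.Agent.Helper3.KL.Near
import Pool.Agent.Helper7.RD.Kv
import Pool.Agent.Helper29.MX.St

/-! Rounding of the point: the systems `s` and `rd s` have the same cells of level 1, the same K-labels, the same
admissible and optimal forms and the same K-volumes. -/

set_option autoImplicit false

namespace Pool.Agent.Helper89.RND

open Finset Filter Topology Matrix Pool.Agent.Helper69.RK Pool.Agent.Helper31.EC Pool.Agent.Helper31.EC.Sp
open Pool.Agent.Helper40.EL Pool.Agent.Helper89.LX Pool.Agent.Helper84.MT Pool.Agent.Helper29.MX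
open Pool.Agent.Helper3.LF (Mon)
open Pool.Agent.Helper3.KL (Cls fm_near vol_near)
open Pool.Agent.Helper89.RAK (rnd rnd_close)
open Pool.Agent.Helper87.NSL (cndR)

noncomputable section

variable {S : Sp} {M D : ℕ} {E : ℕ → ℕ} {ι κ : Type}

theorem cls_rnd (Q : S.VV M) : Cls Q (rnd Q) := ⟨fun _ => 1, S.Sub_const zero_le_one,
  Eventually.of_forall fun k ω _ i => by
    rw [one_mul]
    exact rnd_close Q k ω i⟩

/-- the cells of level 1 are the same -/
theorem cellv_rnd (Q : S.VV M) (k : ℕ) : (rnd Q).cellv 1 k = Q.cellv 1 k := by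
  funext ω
  funext i
  have hd := S.dl_pos 1 k
  have h1 : ((⌊Q.v k ω i / S.dl 1 k⌋ : ℝ) * S.dl 1 k) / S.dl 1 k = (⌊Q.v k ω i / S.dl 1 k⌋ : ℝ) := by
    field_simp
  show ⌊((⌊Q.v k ω i / S.dl 1 k⌋ : ℝ) * S.dl 1 k) / S.dl 1 k⌋ = ⌊Q.v k ω i / S.dl 1 k⌋
  rw [h1, Int.floor_intCast]

theorem vis_rnd (Q : S.VV M) : vis (rnd Q) = vis Q := by
  funext k
  unfold vis
  rw [cellv_rnd]

theorem vis_rd (s : MSys S M E ι) : vis (rd s).Q = vis s.Q := vis_rnd s.Q

theorem dg_rnd (Q : S.VV M) : (rnd Q).dg 1 = Q.dg 1 := by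
  have h1 : (rnd Q).cellv 1 = Q.cellv 1 := funext fun k => cellv_rnd Q k
  unfold VV.dg
  rw [h1]

/-- the conditions are the same -/
theorem cndR_rd (s : MSys S M E ι) (R : Rsl S) (c : ℝ) : cndR (rd s) R c = cndR s R c := funext fun i => by
  cases i <;> rfl

/-- the K-labels are the same -/
theorem klb_rd {s : MSys S M E ι} {R : Rsl S} {c : ℝ} {l : Lab S} : KLb (rd s) R c l ↔ KLb s R c l := by
  unfold KLb
  rw [cndR_rd]

/-- the admissible forms are the same -/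
theorem adf_near [Finite κ] {A : κ → Part S} {Q Q' : S.VV M} (h : Cls Q Q') {x : ∀ k, FD (S.F k) (Mon M D)} :
    (gaq Q' D).Adf A x ↔ (gaq Q D).Adf A x := by
  rw [Gau.Adf_iff, Gau.Adf_iff]
  exact ⟨fun a => ⟨a.1, fm_near h.symm a.2⟩, fun a => ⟨a.1, fm_near h a.2⟩⟩

theorem adfK_near [Finite κ] {C : LC S} {A : κ → Part S} {Q Q' : S.VV M} (h : Cls Q Q')
    {x : ∀ k, FD (S.F k) (Mon M D)} : (gaq Q' D).AdfK C A x ↔ (gaq Q D).AdfK C A x := by
  unfold Gau.AdfK
  rw [adf_near h]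

/-- the optimal forms are the same -/
theorem optfK_near [Finite κ] {C : LC S} {A : κ → Part S} {Q Q' : S.VV M} (h : Cls Q Q')
    {x : ∀ k, FD (S.F k) (Mon M D)} : (gaq Q' D).OptfK C A x ↔ (gaq Q D).OptfK C A x := by
  unfold Gau.OptfK
  constructor
  · rintro ⟨a, b⟩
    exact ⟨(adfK_near h).mp a, fun y hy => b y ((adfK_near h).mpr hy)⟩
  · rintro ⟨a, b⟩
    exact ⟨(adfK_near h).mpr a, fun y hy => b y ((adfK_near h).mp hy)⟩

theorem adf_vol [Finite κ] {A : κ → Part S} {Q Q' : S.VV M} (h : Cls Q Q') {x : ∀ k, FD (S.F k) (Mon M D)}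
    (hx : (gaq Q D).Adf A x) : vol Q' D x = vol Q D x := vol_near h (Gau.Adf_iff.mp hx).2

variable [Finite ι] {s : MSys S M E ι} {R : Rsl S} {c : ℝ}

theorem kad_rd {x : ∀ k, FD (S.F k) (Mon M D)} : KAd (rd s) R D c x ↔ KAd s R D c x := by
  unfold KAd
  rw [cndR_rd]
  exact adfK_near (cls_rnd s.Q)

theorem kop_rd {x : ∀ k, FD (S.F k) (Mon M D)} : KOp (rd s) R D c x ↔ KOp s R D c x := by
  unfold KOp
  rw [cndR_rd]
  exact optfK_near (cls_rnd s.Q)

theorem kad_vol {x : ∀ k, FD (S.F k) (Mon M D)} (hx : KAd s R D c x) : vol (rd s).Q D x = vol s.Q D x :=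
  adf_vol (cls_rnd s.Q) hx.1

/-- the K-volumes are the same -/
theorem volK_rd (s : MSys S M E ι) (R : Rsl S) (D : ℕ) (c : ℝ) : volK (rd s) R D c = volK s R D c := by
  unfold volK
  refine congrArg sInf (Set.ext fun v => ?_)
  constructor
  · rintro ⟨x, hx, rfl⟩
    exact ⟨x, kad_rd.mp hx, kad_vol (kad_rd.mp hx)⟩
  · rintro ⟨x, hx, rfl⟩
    exact ⟨x, kad_rd.mpr hx, (kad_vol hx).symm⟩

theorem volKO_rd (s : MSys S M E ι) (R : Rsl S) (c : ℝ) : volKO (rd s) R c = volKO s R c := by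
  unfold volKO
  exact iInf_congr fun D => volK_rd s R D c

omit [Finite ι] in
theorem HK_rd (s : MSys S M E ι) (R : Rsl S) (c : ℝ) : HK (rd s) R c = HK s R c := by
  unfold HK
  refine congrArg sInf (Set.ext fun v => ?_)
  have h1 : (rd s).Q.dg 1 = s.Q.dg 1 := dg_rnd s.Q
  constructor
  · rintro ⟨l, hl, rfl⟩
    exact ⟨l, klb_rd.mp hl, by rw [h1]⟩
  · rintro ⟨l, hl, rfl⟩
    exact ⟨l, klb_rd.mpr hl, by rw [h1]⟩

omit [Finite ι] in
/-- the number `volK` is the volume of the optimal forms -/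
theorem volK_opt {x : ∀ k, FD (S.F k) (Mon M D)} (hx : KOp s R D c x) : volK s R D c = vol s.Q D x := by
  unfold volK
  refine IsLeast.csInf_eq ⟨⟨x, hx.1, rfl⟩, ?_⟩
  rintro v ⟨y, hy, rfl⟩
  exact Pool.Agent.Helper7.RD.optK_vol_le hx hy

/-- THE WORKING FORM of the inequality `volKO ≤ HK`: for all `ε` there is a degree `D` such that all optimal forms of
degree `D` have a volume at most `h(Q | l) + ε`, for all K-labels `l` -/
def Gd (s : MSys S M E ι) (R : Rsl S) (c : ℝ) : Prop := ∀ ε : ℝ, 0 < ε → ∃ D : ℕ,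
  ∀ x : ∀ k, FD (S.F k) (Mon M D), KOp s R D c x → ∀ l : Lab S, KLb s R c l → vol s.Q D x ≤ H (up1 l (s.Q.dg 1)) + ε

/-- the working form from the inequality of helper29 (STOK, STVP) -/
theorem gd_of (h : volKO s R c ≤ HK s R c) : Gd s R c := by
  intro ε hε
  have h1 : ⨅ D : ℕ, volK s R D c < volKO s R c + ε := by
    have : volKO s R c = ⨅ D : ℕ, volK s R D c := rfl
    rw [← this]
    linarith
  obtain ⟨D, hD⟩ := exists_lt_of_ciInf_lt h1
  refine ⟨D, fun x hx l hl => ?_⟩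
  rw [← volK_opt hx]
  have h2 : HK s R c ≤ H (up1 l (s.Q.dg 1)) := by
    unfold HK
    refine csInf_le ⟨0, ?_⟩ ⟨l, hl, rfl⟩
    rintro v ⟨l', _, rfl⟩
    exact Pool.Agent.Helper31.EC.H_nonneg _
  linarith

/-- ... for the rounded point -/
theorem gd_of_rd (h : volKO (rd s) (vis (rd s).Q) c ≤ HK (rd s) (vis (rd s).Q) c) : Gd s (vis s.Q) c := by
  rw [vis_rd, volKO_rd, HK_rd] at h
  exact gd_of h

theorem gd_rd (h : Gd (rd s) R c) : Gd s R c := by
  intro ε hε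
  obtain ⟨D, hD⟩ := h ε hε
  refine ⟨D, fun x hx l hl => ?_⟩
  have h1 := hD x (kop_rd.mpr hx) l (klb_rd.mpr hl)
  have h2 : (rd s).Q.dg 1 = s.Q.dg 1 := dg_rnd s.Q
  rwa [kad_vol hx.1, h2] at h1

end

end Pool.Agent.Helper89.RND
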